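import Pool.Agent.Helper85_CYD.StG
import Pool.Agent.Helper85_CYD.St2

/-! # CYD: module RPB (the representations of `u(k)`) -/

set_option autoImplicit false

open Polynomial IsLocalRing

namespace Pool.Agent.CYD
namespace H50R

section general

variable {L : Type} [Field L]

/-- substitution of `u X ^ D` -/
noncomputable def S (u : L) (D : ℕ) (q : L[X]) : L[X] := q.comp (C u * X ^ D)

theorem S_add (u : L) (D : ℕ) (q r : L[X]) : S u D (q + r) = S u D q + S u D r := add_comp

theorem S_sub (u : L) (D : ℕ) (q r : L[X]) : S u D (q - r) = S u D q - S u D r := sub_comp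

theorem S_mul (u : L) (D : ℕ) (q r : L[X]) : S u D (q * r) = S u D q * S u D r := mul_comp _ _ _

theorem S_neg (u : L) (D : ℕ) (q : L[X]) : S u D (-q) = -S u D q := neg_comp

theorem expand_comp (u : L) (D : ℕ) (q : L[X]) : expand L D (q.comp (C u * X)) = S u D q := by
  unfold S
  rw [expand_eq_comp_X_pow, comp_assoc, mul_comp, C_comp, X_comp]

theorem S_ld {u : L} {D : ℕ} {N q Δ : L[X]} (h : N * q = Δ * (X * derivative q)) :
    (C (D : L) * S u D N) * S u D q = S u D Δ * (X * derivative (S u D q)) := by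
  have h1 : X * derivative (S u D q) = C (D : L) * S u D (X * derivative q) := by
    rw [S_mul]
    unfold S
    rw [derivative_comp, derivative_C_mul, derivative_X_pow, X_comp]
    rcases Nat.eq_zero_or_pos D with h0 | h0
    · subst h0
      simp
    · have h2 : (X : L[X]) ^ D = X ^ (D - 1) * X := by
        rw [← pow_succ, Nat.sub_add_cancel h0]
      rw [h2]
      ring
  rw [h1]
  have h2 : S u D N * S u D q = S u D Δ * S u D (X * derivative q) := by
    rw [← S_mul, ← S_mul, h]
  linear_combination C (D : L) * h2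

theorem comp_inj {u : L} (hu : u ≠ 0) {q r : L[X]} (h : q.comp (C u * X) = r.comp (C u * X)) :
    q = r := by
  have h1 := congrArg (fun s : L[X] => s.comp (C u⁻¹ * X)) h
  simp only [comp_assoc, mul_comp, C_comp, X_comp] at h1
  have h2 : (C u * (C u⁻¹ * X) : L[X]) = X := by
    rw [← mul_assoc, ← C_mul, mul_inv_cancel₀ hu, C_1, one_mul]
  rwa [h2, comp_X, comp_X] at h1

theorem ld_mul {Δ q r N M : L[X]} (h1 : N * q = Δ * (X * derivative q))
    (h2 : M * r = Δ * (X * derivative r)) :
    (N + M) * (q * r) = Δ * (X * derivative (q * r)) := by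
  rw [derivative_mul]
  linear_combination r * h1 + q * h2

theorem ld_negX {Δ q N : L[X]} (h1 : N * q = Δ * (X * derivative q)) :
    (N + Δ) * (-(X * q)) = Δ * (X * derivative (-(X * q))) := by
  rw [derivative_neg, derivative_mul, derivative_X]
  linear_combination (-X) * h1

theorem logC_of {Δ x y N M : L[X]} {c : L} (hΔ : Δ ≠ 0) (h1 : N * x = Δ * (X * derivative x))
    (h2 : M * y = Δ * (X * derivative y)) (h : N - M = C c * Δ) : LogC x y := by
  refine ⟨c, mul_left_cancel₀ hΔ ?_⟩
  linear_combination (-y) * h1 + x * h2 + (x * y) * h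

end general

section rep

variable {K : Type} [Field K]

theorem mk_rep {p : ℕ} {A : ValuationSubring K} {z : A} {w : K}
    {N P M1 M2 : (ResidueField A)[X]} {μ : ℕ} (e : ℤ) (F G : ℤ[X]) (x y : (ResidueField A)[X])
    (h1 : w * (p : K) ^ e * aeval (z : K) G = aeval (z : K) F)
    (h2 : (X - 1) ^ (p - 1) ∣ (red (ResidueField A) F).comp (C (residue A z) * X) - x)
    (h3 : (X - 1) ^ (p - 1) ∣ (red (ResidueField A) G).comp (C (residue A z) * X) - y)
    (h4 : x ≠ 0) (h5 : y ≠ 0) (h6 : rootMultiplicity 1 x + rootMultiplicity 1 y ≤ μ)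
    (h7 : M1 * x = P * (X * derivative x)) (h8 : M2 * y = P * (X * derivative y))
    (h9 : N = M1 - M2) : Rep p A z w N P μ := by
  refine ⟨e, F, G, x, y, h1, h2, h3, h4, h5, ?_, ?_⟩
  · rwa [rootMultiplicity_mul (mul_ne_zero h4 h5)]
  · rw [h9]
    linear_combination y * h7 - x * h8

end rep

section special

variable {L : Type} [Field L]

theorem comp_sub_dvd (q r t : L[X]) : r - t ∣ q.comp r - q.comp t := by
  have h := sub_dvd_eval_sub r t (q.map C)
  rwa [eval_map, eval_map] at h

theorem X_pow_sub_dvd {p : ℕ} [Fact p.Prime] [CharP L p] (k : ℕ) :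
    ((X : L[X]) - 1) ^ p ∣ X ^ (p * k) - 1 := by
  have h1 : (X : L[X]) ^ (p * k) - 1 = (X ^ k - 1) ^ p := by
    rw [sub_pow_char, one_pow, ← pow_mul, mul_comm]
  rw [h1]
  refine pow_dvd_pow_of_dvd ?_ _
  have h2 := sub_dvd_pow_sub_pow (X : L[X]) 1 k
  rwa [one_pow] at h2

theorem special {p : ℕ} [Fact p.Prime] [CharP L p] (a : L) (f : ℤ[X]) (r k : ℕ) :
    ((X : L[X]) - 1) ^ (p - 1) ∣ (red L (X ^ r * expand ℤ (p * k) f)).comp (C a * X) -
      C (a ^ r * (red L f).eval (a ^ (p * k))) * X ^ r := by
  have h1 : (red L (X ^ r * expand ℤ (p * k) f)).comp (C a * X) =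
      C (a ^ r) * X ^ r * (red L f).comp (C (a ^ (p * k)) * X ^ (p * k)) := by
    unfold red
    rw [Polynomial.map_mul, Polynomial.map_pow, Polynomial.map_X, map_expand, mul_comp, pow_comp,
      X_comp, mul_pow, C_pow, expand_eq_comp_X_pow, comp_assoc, pow_comp, X_comp, mul_pow, C_pow]
  have h2 : C (a ^ r * (red L f).eval (a ^ (p * k))) * X ^ r =
      C (a ^ r) * X ^ r * (red L f).comp (C (a ^ (p * k))) := by
    rw [comp_C, C_mul]
    ring
  rw [h1, h2, ← mul_sub]
  refine Dvd.dvd.mul_left ?_ _
  refine Dvd.dvd.trans ?_ (comp_sub_dvd _ _ _)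
  have h3 : C (a ^ (p * k)) * X ^ (p * k) - C (a ^ (p * k)) =
      C (a ^ (p * k)) * ((X : L[X]) ^ (p * k) - 1) := by ring
  rw [h3]
  exact Dvd.dvd.mul_left ((pow_dvd_pow _ (Nat.sub_le _ _)).trans (X_pow_sub_dvd k)) _

theorem ld_const (κ : L) (r : ℕ) :
    X * derivative (C κ * X ^ r) = C (r : L) * (C κ * X ^ r) := by
  rw [derivative_C_mul_X_pow]
  rcases Nat.eq_zero_or_pos r with h | h
  · subst h
    simp
  · have h2 : (X : L[X]) ^ r = X ^ (r - 1) * X := by
      rw [← pow_succ, Nat.sub_add_cancel h]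
    conv_rhs => rw [h2]
    rw [C_mul]
    ring

theorem mult_const {κ : L} (hκ : κ ≠ 0) (r : ℕ) : rootMultiplicity 1 (C κ * (X : L[X]) ^ r) = 0 := by
  refine rootMultiplicity_eq_zero ?_
  rw [IsRoot, eval_mul, eval_C, eval_pow, eval_X, one_pow, mul_one]
  exact hκ

/-- the residue of a primitive root of unity -/
theorem prim_residue {K : Type} [Field K] [CharZero K] {p m : ℕ} (hp : p.Prime) (hpm : ¬ p ∣ m)
    (A : ValuationSubring K) [CharP (ResidueField A) p] (z : A)
    (hz : IsPrimitiveRoot z (p * m)) : IsPrimitiveRoot (residue A z) m := by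
  have hm0 : 0 < m := Nat.pos_of_ne_zero (by
    rintro rfl
    exact hpm (dvd_zero p))
  have hmL : NeZero (m : ResidueField A) :=
    ⟨fun h => hpm ((CharP.cast_eq_zero_iff (ResidueField A) p m).1 h)⟩
  have hc : IsPrimitiveRoot (z ^ p) m := hz.pow (Nat.mul_pos hp.pos hm0) rfl
  have hmA : NeZero (m : A) := ⟨fun h => by
    have h1 : ((m : A) : K) = 0 := by rw [h]; rfl
    have h2 : (m : K) = 0 := by
      rw [← h1]
      simp
    exact (Nat.cast_ne_zero.2 hm0.ne') h2⟩
  have h1 : IsRoot (cyclotomic m A) (z ^ p) := isRoot_cyclotomic_iff.2 hc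
  have h2 : IsRoot (cyclotomic m (ResidueField A)) (residue A (z ^ p)) := by
    have h3 := h1.map (f := residue A)
    rwa [map_cyclotomic] at h3
  have h3 : IsPrimitiveRoot (residue A z ^ p) m := by
    rw [← map_pow]
    exact isRoot_cyclotomic_iff.1 h2
  have := Fact.mk hp
  refine ⟨?_, fun l hl => ?_⟩
  · have h4 : (residue A z ^ m - 1) ^ p = 0 := by
      rw [sub_pow_char, one_pow, ← pow_mul, mul_comm, pow_mul, h3.pow_eq_one, sub_self]
    exact sub_eq_zero.1 (pow_eq_zero_iff hp.ne_zero |>.1 h4)
  · refine h3.dvd_of_pow_eq_one l ?_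
    rw [← pow_mul, mul_comm, pow_mul, hl, one_pow]

end special

end H50R

open H50R in
/-- module RPB -/
theorem rpb (hRad : RadStmt) (hRpx : RpxStmt) (hIdn : IdnStmt) (hFct : FctStmt)
    (hClm : ClmStmt) (hRmu : RmuStmt) (hAbs : AbsStmt) : RpbStmt := by
  intro p m g h F K _ _ A z hpA hz
  classical
  have := Fact.mk F.hp
  have hpm := F.ndvd
  have hmp : m < p := by
    have h1 := F.hpm
    have h2 := F.hm
    nlinarith
  have hpL : (p : ResidueField A) = 0 := by
    have h1 := (IsLocalRing.residue_eq_zero_iff (R := A) (p : A)).2 hpA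
    rwa [map_natCast] at h1
  have hchar : CharP (ResidueField A) p :=
    (CharP.charP_iff_prime_eq_zero F.hp).2 hpL
  have ha : IsPrimitiveRoot (residue A z) m := prim_residue F.hp hpm A z hz
  obtain ⟨f1, f2, f3, f4, f5, f6, f7, f8, f9, f10, f11⟩ := hFct p m g h F (ResidueField A)
  set a := residue A z with ha_def
  have hm2 : 2 ≤ m.totient := by
    have h1 := Nat.totient_even (show 2 < m by have := F.hm; omega)
    have h2 := Nat.totient_pos.2 (show 0 < m by have := F.hm; omega)
    obtain ⟨r, hr⟩ := h1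
    omega
  set c0 : (ResidueField A)[X] := cyclotomic m (ResidueField A) with hc0
  set c1 : (ResidueField A)[X] := derivative c0 with hc1
  set c2 : (ResidueField A)[X] := c1.reverse with hc2
  have hc0ne : c0 ≠ 0 := cyclotomic_ne_zero m _
  have hc1ne : c1 ≠ 0 := by
    intro h0
    rw [h0, natDegree_zero] at f4
    omega
  have hc2ne : c2 ≠ 0 := by
    intro h0
    rw [h0, natDegree_zero] at f5
    omega
  set Δ : (ResidueField A)[X] := c0 * c1 * c2 with hΔ_def
  have hΔ : Δ ≠ 0 := mul_ne_zero (mul_ne_zero hc0ne hc1ne) hc2ne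
  have hΔd : Δ.natDegree ≤ 3 * m.totient := by
    rw [hΔ_def, natDegree_mul (mul_ne_zero hc0ne hc1ne) hc2ne, natDegree_mul hc0ne hc1ne, hc0,
      natDegree_cyclotomic]
    omega
  have hgne : red (ResidueField A) g ≠ 0 := fun h0 => f8 (by rw [h0, coeff_zero])
  have hgrne : red (ResidueField A) g.reverse ≠ 0 := fun h0 => f9 (by rw [h0, coeff_zero])
  have hhne : red (ResidueField A) h ≠ 0 := fun h0 => f10 (by rw [h0, coeff_zero])
  have hhrne : red (ResidueField A) h.reverse ≠ 0 := fun h0 => f11 (by rw [h0, coeff_zero])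
  have hd1 : red (ResidueField A) g * red (ResidueField A) h ∣ Δ ^ (p - 2 + 1) := by
    rw [f1, neg_dvd, pow_succ, hΔ_def]
    refine mul_dvd_mul (pow_dvd_pow_of_dvd ((dvd_mul_right _ _).trans (dvd_mul_right _ _)) _) ?_
    exact (dvd_mul_left _ _).trans (dvd_mul_right _ _)
  have hd2 : red (ResidueField A) g.reverse * red (ResidueField A) h.reverse ∣
      Δ ^ (p - 2 + 1) := by
    rw [f2, neg_dvd, pow_succ, hΔ_def]
    refine mul_dvd_mul (pow_dvd_pow_of_dvd ((dvd_mul_right _ _).trans (dvd_mul_right _ _)) _) ?_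
    exact dvd_mul_left _ _
  obtain ⟨Ng, dg, eg⟩ := hRad _ (red (ResidueField A) g) Δ (p - 2 + 1) hΔ
    ((dvd_mul_right _ _).trans hd1)
  obtain ⟨Nh, dh, eh⟩ := hRad _ (red (ResidueField A) h) Δ (p - 2 + 1) hΔ
    ((dvd_mul_left _ _).trans hd1)
  obtain ⟨Ngr, dgr, egr⟩ := hRad _ (red (ResidueField A) g.reverse) Δ (p - 2 + 1) hΔ
    ((dvd_mul_right _ _).trans hd2)
  obtain ⟨Nhr, dhr, ehr⟩ := hRad _ (red (ResidueField A) h.reverse) Δ (p - 2 + 1) hΔ
    ((dvd_mul_left _ _).trans hd2)
  obtain ⟨Nc, dc, ec⟩ := hRad _ c0 Δ 1 hΔ (by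
    rw [pow_one, hΔ_def]
    exact (dvd_mul_right _ _).trans (dvd_mul_right _ _))
  have hredc : red (ResidueField A) (cyclotomic m ℤ) = c0 := map_cyclotomic_int _ _
  have hredm : ∀ f k : ℤ[X], red (ResidueField A) (f * k) =
      red (ResidueField A) f * red (ResidueField A) k := fun f k => Polynomial.map_mul _
  have e10 : (Ngr + (Nh + Nc)) * red (ResidueField A) (g.reverse * (h * cyclotomic m ℤ)) =
      Δ * (X * derivative (red (ResidueField A) (g.reverse * (h * cyclotomic m ℤ)))) := by
    rw [hredm, hredm, hredc]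
    exact ld_mul egr (ld_mul eh ec)
  have e01 : (Nhr + (Ng + Nc)) * red (ResidueField A) (h.reverse * (g * cyclotomic m ℤ)) =
      Δ * (X * derivative (red (ResidueField A) (h.reverse * (g * cyclotomic m ℤ)))) := by
    rw [hredm, hredm, hredc]
    exact ld_mul ehr (ld_mul eg ec)
  have e11 : (Nh + Δ) * red (ResidueField A) (-(X * h)) =
      Δ * (X * derivative (red (ResidueField A) (-(X * h)))) := by
    have h1 : red (ResidueField A) (-(X * h)) = -(X * red (ResidueField A) h) := by
      unfold red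
      rw [Polynomial.map_neg, Polynomial.map_mul, Polynomial.map_X]
    rw [h1]
    exact ld_negX eh
  have hX : (X : (ResidueField A)[X]) ≠ 0 := X_ne_zero
  -- the numerators
  set bg : ResidueField A → Prop := fun u => m.totient ≤ rootMultiplicity u (red _ g) with hbg
  set NN : ResidueField A → ResidueField A → (ResidueField A)[X] := fun u v =>
    if bg u then (if bg v then (Nh + Δ) - Nhr else (Ngr + (Nh + Nc)) - (-Δ))
    else (if bg v then 0 - (Nhr + (Ng + Nc)) else Ngr - Ng) with hNN
  have hNNd : ∀ u v, (NN u v).natDegree ≤ Δ.natDegree := by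
    intro u v
    simp only [hNN]
    split_ifs
    · refine (natDegree_sub_le _ _).trans (max_le ?_ dhr)
      exact (natDegree_add_le _ _).trans (max_le dh le_rfl)
    · refine (natDegree_sub_le _ _).trans (max_le ?_ ?_)
      · exact (natDegree_add_le _ _).trans (max_le dgr
          ((natDegree_add_le _ _).trans (max_le dh dc)))
      · rw [natDegree_neg]
    · refine (natDegree_sub_le _ _).trans (max_le ?_ ?_)
      · rw [natDegree_zero]
        exact Nat.zero_le _
      · exact (natDegree_add_le _ _).trans (max_le dhr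
          ((natDegree_add_le _ _).trans (max_le dg dc)))
    · exact (natDegree_sub_le _ _).trans (max_le dgr dg)
  have ha0 : a ≠ 0 := ha.ne_zero (by have := F.hm; omega)
  have hpow : ∀ b b' : ℕ, b ≡ b' [MOD m] → a ^ b = a ^ b' := by
    intro b b' hb
    have h1 := pow_mod_orderOf a b
    have h2 := pow_mod_orderOf a b'
    rw [← ha.eq_orderOf] at h1 h2
    rw [← h1, ← h2, hb]
  have hBig : ∀ b : ℕ, Big A m g z b ↔ bg (a ^ b) := by
    intro b
    simp only [Big, mu, hbg, map_pow]
    rfl
  refine ⟨fun b => (NN (a ^ b) (a ^ ((m - 1) * b))).comp (C (a ^ b) * X),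
    fun b => Δ.comp (C (a ^ b) * X), ?_, ?_, ?_, ?_⟩
  · intro b
    have hcd : ∀ q : (ResidueField A)[X],
        (q.comp (C (a ^ b) * X)).natDegree ≤ q.natDegree := by
      intro q
      refine (natDegree_comp_le).trans ?_
      calc q.natDegree * (C (a ^ b) * X : (ResidueField A)[X]).natDegree
          ≤ q.natDegree * 1 := Nat.mul_le_mul_left _ ((natDegree_C_mul_le _ _).trans natDegree_X_le)
        _ = q.natDegree := mul_one _
    refine ⟨fun h0 => hΔ ?_, ((hcd _).trans (hNNd _ _)).trans hΔd, (hcd _).trans hΔd⟩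
    refine comp_inj (pow_ne_zero b ha0) ?_
    rw [zero_comp]
    exact h0
  · intro b b' hb
    have h1 := hpow b b' hb
    have h2 := hpow ((m - 1) * b) ((m - 1) * b') (Nat.ModEq.mul_left _ hb)
    dsimp only
    rw [h1, h2]
    exact ⟨rfl, rfl⟩
  · intro k D hk hkD
    dsimp only
    rw [expand_comp, expand_comp]
    have hm1 : 1 ≤ m := by have := F.hm; omega
    have hkp : ¬ p ∣ k := fun hd => by
      have h1 : p ∣ Nat.gcd k (p * m) := Nat.dvd_gcd hd (dvd_mul_right _ _)
      rw [Nat.Coprime] at hk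
      rw [hk] at h1
      exact F.hp.one_lt.ne' (Nat.dvd_one.1 h1)
    have hkm : k.Coprime m := Nat.Coprime.coprime_dvd_right (dvd_mul_left m p) hk
    have hak : IsPrimitiveRoot (a ^ k) m := ha.pow_of_coprime k hkm
    have hR := fun f => hRpx p m (ResidueField A) a f k D F.hp hm1 ha hkD hkp
    have hzK : IsPrimitiveRoot (z : K) (p * m) :=
      hz.map_of_injective (f := A.subtype) Subtype.val_injective
    have hx : IsPrimitiveRoot ((z : K) ^ k) (p * m) := hzK.pow_of_coprime k hk
    obtain ⟨hg0, hgr0, -⟩ := hAbs (p * m) g h F.F K ((z : K) ^ k) hx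
    obtain ⟨i1, i2, i3⟩ := hIdn p m g h F.hp F.hm hpm F.F K ((z : K) ^ k) hx
    have hev : ∀ (r : ℕ) (f : ℤ[X]), aeval (z : K) (expand ℤ r f) = aeval ((z : K) ^ r) f :=
      fun r f => expand_aeval r f (z : K)
    have hinv : a ^ k * a ^ ((m - 1) * k) = 1 := by
      rw [← pow_add]
      have h1 : k + (m - 1) * k = m * k := by
        obtain ⟨m', rfl⟩ : ∃ m', m = m' + 1 := ⟨m - 1, by omega⟩
        rw [Nat.add_sub_cancel]
        ring
      rw [h1, pow_mul, ha.pow_eq_one, one_pow]
    have hrm : ∀ f : ℤ[X], rootMultiplicity (a ^ k) (red (ResidueField A) f.reverse) =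
        rootMultiplicity (a ^ ((m - 1) * k)) (red (ResidueField A) f) :=
      fun f => (hRmu _ f _ _ hinv).1
    have hcop1 : (m - 1).Coprime m := by
      obtain ⟨m', rfl⟩ : ∃ m', m = m' + 1 := ⟨m - 1, by omega⟩
      rw [Nat.add_sub_cancel]
      simp
    have hav : IsPrimitiveRoot (a ^ ((m - 1) * k)) m :=
      ha.pow_of_coprime _ (Nat.Coprime.mul_left hcop1 hkm)
    have hcu := hClm p m g h F.hp F.hm hmp F.F (ResidueField A) (a ^ k) hak
    have hcv := hClm p m g h F.hp F.hm hmp F.F (ResidueField A) (a ^ ((m - 1) * k)) hav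
    have hmL : NeZero (m : ResidueField A) :=
      ⟨fun h => hpm ((CharP.cast_eq_zero_iff (ResidueField A) p m).1 h)⟩
    have hsep : c0.Separable := separable_cyclotomic m _
    have hccy : rootMultiplicity (a ^ k) c0 ≤ 1 := rootMultiplicity_le_one_of_separable hsep _
    have hmS : ∀ f : ℤ[X], rootMultiplicity 1 (S (a ^ k) D (red (ResidueField A) f)) =
        rootMultiplicity (a ^ k) (red (ResidueField A) f) := fun f => (hR f).2.1
    have hκ : (red (ResidueField A) (derivative (cyclotomic m ℤ))).eval (a ^ (p * k)) ≠ 0 := by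
      have h1 : red (ResidueField A) (derivative (cyclotomic m ℤ)) = derivative c0 := by
        rw [← hredc]
        exact (derivative_map _ _).symm
      have h2 : IsPrimitiveRoot (a ^ (p * k)) m :=
        ha.pow_of_coprime _ (Nat.Coprime.mul_left F.cop hkm)
      have h3 : IsRoot c0 (a ^ (p * k)) := isRoot_cyclotomic_iff.2 h2
      have h4 := hsep.eval₂_derivative_ne_zero (RingHom.id (ResidueField A))
        (x := a ^ (p * k)) (by
          rw [eval₂_id]
          exact h3)
      rw [eval₂_id] at h4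
      rwa [h1]
    by_cases h1 : bg (a ^ k) <;> by_cases h2 : bg (a ^ ((m - 1) * k))
    · -- both big
      simp only [hNN]
      rw [if_pos h1, if_pos h2]
      simp only [hbg] at h1 h2
      have hneg : red (ResidueField A) (-(X * h)) = (-X) * red (ResidueField A) h := by
        unfold red
        rw [Polynomial.map_neg, Polynomial.map_mul, Polynomial.map_X, neg_mul]
      have hnegne : red (ResidueField A) (-(X * h)) ≠ 0 := by
        rw [hneg]
        exact mul_ne_zero (neg_ne_zero.2 hX) hhne
      refine mk_rep 0 (expand ℤ k (-(X * h))) (expand ℤ k h.reverse)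
        (S (a ^ k) D (red _ (-(X * h)))) (S (a ^ k) D (red _ h.reverse)) ?_ (hR _).1 (hR _).1
        ((hR _).2.2 hnegne) ((hR _).2.2 hhrne) ?_ (S_ld e11) (S_ld ehr) ?_
      · rw [hev, hev, zpow_zero, mul_one, uu, map_neg, map_mul, aeval_X, div_mul_eq_mul_div, i3]
        field_simp
      · rw [hmS, hmS, hrm, hneg, rootMultiplicity_mul (by rw [← hneg]; exact hnegne),
          rootMultiplicity_eq_zero (p := -X) (by
            rw [IsRoot, eval_neg, eval_X, neg_eq_zero]
            exact pow_ne_zero _ ha0)]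
        omega
      · rw [S_sub, mul_sub]
    · -- big at b only
      simp only [hNN]
      rw [if_pos h1, if_neg h2]
      simp only [hbg] at h1 h2
      have hprod : red (ResidueField A) (g.reverse * (h * cyclotomic m ℤ)) ≠ 0 := by
        rw [hredm, hredm, hredc]
        exact mul_ne_zero hgrne (mul_ne_zero hhne hc0ne)
      have hκ' : a ^ ((p - 1) * k) *
          (red (ResidueField A) (derivative (cyclotomic m ℤ))).eval (a ^ (p * k)) ≠ 0 :=
        mul_ne_zero (pow_ne_zero _ ha0) hκ
      refine mk_rep 1 (expand ℤ k (g.reverse * (h * cyclotomic m ℤ)))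
        (X ^ ((p - 1) * k) * expand ℤ (p * k) (derivative (cyclotomic m ℤ)))
        (S (a ^ k) D (red _ (g.reverse * (h * cyclotomic m ℤ))))
        (C (a ^ ((p - 1) * k) *
          (red (ResidueField A) (derivative (cyclotomic m ℤ))).eval (a ^ (p * k))) *
            X ^ ((p - 1) * k)) ?_ (hR _).1 (special a _ _ _) ((hR _).2.2 hprod)
        (mul_ne_zero (C_ne_zero.2 hκ') (pow_ne_zero _ hX)) ?_ (S_ld e10)
        (M2 := C (D : ResidueField A) * S (a ^ k) D (-Δ)) ?_ ?_
      · rw [hev, map_mul, map_pow, aeval_X, hev, zpow_one, uu, map_mul, map_mul]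
        have h3 : ((z : K) ^ k) ^ (p - 1) = (z : K) ^ ((p - 1) * k) := by
          rw [← pow_mul, mul_comm]
        have h4 : ((z : K) ^ k) ^ p = (z : K) ^ (p * k) := by
          rw [← pow_mul, mul_comm]
        rw [h3, h4] at i1
        rw [mul_assoc, ← i1]
        field_simp
      · rw [hmS, mult_const hκ', hredm, hredm, hredc,
          rootMultiplicity_mul (by rw [← hredc, ← hredm, ← hredm]; exact hprod),
          rootMultiplicity_mul (mul_ne_zero hhne hc0ne), hrm]
        omega
      · rw [ld_const, S_neg]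
        have h3 : (((p - 1) * k : ℕ) : ResidueField A) = -(D : ResidueField A) := by
          rw [Nat.cast_mul, Nat.cast_sub F.hp.one_le, hpL, Nat.cast_one,
            (CharP.natCast_eq_natCast (ResidueField A) p).2 hkD]
          ring
        rw [h3, C_neg]
        ring
      · rw [S_sub, mul_sub]
    · -- big at -b only
      simp only [hNN]
      rw [if_neg h1, if_pos h2]
      simp only [hbg] at h1 h2
      have hprod : red (ResidueField A) (h.reverse * (g * cyclotomic m ℤ)) ≠ 0 := by
        rw [hredm, hredm, hredc]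
        exact mul_ne_zero hhrne (mul_ne_zero hgne hc0ne)
      have hκ' : -(a ^ (p * k) *
          (red (ResidueField A) (derivative (cyclotomic m ℤ))).eval (a ^ (p * k))) ≠ 0 :=
        neg_ne_zero.2 (mul_ne_zero (pow_ne_zero _ ha0) hκ)
      refine mk_rep (-1) (-(X ^ (p * k) * expand ℤ (p * k) (derivative (cyclotomic m ℤ))))
        (expand ℤ k (h.reverse * (g * cyclotomic m ℤ)))
        (C (-(a ^ (p * k) *
          (red (ResidueField A) (derivative (cyclotomic m ℤ))).eval (a ^ (p * k)))) *
            X ^ (p * k))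
        (S (a ^ k) D (red _ (h.reverse * (g * cyclotomic m ℤ)))) ?_ ?_ (hR _).1
        (mul_ne_zero (C_ne_zero.2 hκ') (pow_ne_zero _ hX)) ((hR _).2.2 hprod) ?_
        (M1 := 0) ?_ (S_ld e01) ?_
      · have h6 : aeval (z : K) (-(X ^ (p * k) * expand ℤ (p * k) (derivative (cyclotomic m ℤ)))) =
            -((z : K) ^ (p * k) * aeval ((z : K) ^ (p * k)) (derivative (cyclotomic m ℤ))) := by
          rw [map_neg, map_mul, map_pow, aeval_X, hev]
        rw [h6, hev, uu, map_mul, map_mul]
        have h4 : ((z : K) ^ k) ^ p = (z : K) ^ (p * k) := by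
          rw [← pow_mul, mul_comm]
        rw [h4] at i2
        have hp0 : (p : K) ≠ 0 := Nat.cast_ne_zero.2 F.hp.ne_zero
        rw [zpow_neg_one]
        have h5 : aeval ((z : K) ^ k) g.reverse / aeval ((z : K) ^ k) g * (p : K)⁻¹ *
            (aeval ((z : K) ^ k) h.reverse * (aeval ((z : K) ^ k) g *
              aeval ((z : K) ^ k) (cyclotomic m ℤ))) =
            (p : K)⁻¹ * (aeval ((z : K) ^ k) g.reverse * (aeval ((z : K) ^ k) h.reverse *
              aeval ((z : K) ^ k) (cyclotomic m ℤ))) := by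
          field_simp
        rw [h5, i2]
        field_simp
      · have h3 : (red (ResidueField A)
            (-(X ^ (p * k) * expand ℤ (p * k) (derivative (cyclotomic m ℤ))))).comp
              (C a * X) - C (-(a ^ (p * k) *
          (red (ResidueField A) (derivative (cyclotomic m ℤ))).eval (a ^ (p * k)))) *
            X ^ (p * k) = -((red (ResidueField A)
            (X ^ (p * k) * expand ℤ (p * k) (derivative (cyclotomic m ℤ)))).comp
              (C a * X) - C (a ^ (p * k) *
          (red (ResidueField A) (derivative (cyclotomic m ℤ))).eval (a ^ (p * k))) *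
            X ^ (p * k)) := by
          have h4 : red (ResidueField A)
            (-(X ^ (p * k) * expand ℤ (p * k) (derivative (cyclotomic m ℤ)))) =
            -(red (ResidueField A)
            (X ^ (p * k) * expand ℤ (p * k) (derivative (cyclotomic m ℤ)))) :=
            Polynomial.map_neg _
          rw [h4, neg_comp, C_neg]
          ring
        rw [h3]
        exact dvd_neg.2 (special a _ _ _)
      · rw [hmS, mult_const hκ', hredm, hredm, hredc,
          rootMultiplicity_mul (by rw [← hredc, ← hredm, ← hredm]; exact hprod),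
          rootMultiplicity_mul (mul_ne_zero hgne hc0ne), hrm]
        omega
      · rw [ld_const]
        have h3 : ((p * k : ℕ) : ResidueField A) = 0 := by
          rw [Nat.cast_mul, hpL, zero_mul]
        rw [h3]
        simp
      · rw [S_sub]
        unfold S
        rw [zero_comp]
        ring
    · -- not big
      simp only [hNN]
      rw [if_neg h1, if_neg h2]
      simp only [hbg] at h1 h2
      refine mk_rep 0 (expand ℤ k g.reverse) (expand ℤ k g)
        (S (a ^ k) D (red _ g.reverse)) (S (a ^ k) D (red _ g)) ?_ (hR _).1 (hR _).1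
        ((hR _).2.2 hgrne) ((hR _).2.2 hgne) ?_ (S_ld egr) (S_ld eg) ?_
      · rw [hev, hev, zpow_zero, mul_one, uu, div_mul_cancel₀ _ hg0]
      · rw [hmS, hmS, hrm]
        omega
      · rw [S_sub, mul_sub]
  · intro b hb c hc
    dsimp only at hc
    have h0 : (C c * Δ.comp (C (a ^ b) * X) : (ResidueField A)[X]) =
        (C c * Δ).comp (C (a ^ b) * X) := by
      rw [mul_comp (C c) Δ, C_comp]
    rw [h0] at hc
    have h1 := comp_inj (pow_ne_zero b ha0) hc
    simp only [hNN] at h1
    rw [TypC, hBig, hBig]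
    refine ⟨fun h2 h3 => ?_, fun h2 h3 => ?_, fun h2 h3 => ?_, fun h2 h3 => ?_⟩
    · rw [if_neg h2, if_neg h3] at h1
      exact logC_of hΔ egr eg h1
    · rw [if_pos h2, if_neg h3] at h1
      have h4 : (Ngr + (Nh + Nc)) - 0 = C (c - 1) * Δ := by
        rw [C_sub, C_1]
        linear_combination h1
      have h5 := logC_of (y := 1) hΔ e10 (by simp) h4
      have h6 : g.reverse * (h * cyclotomic m ℤ) = g.reverse * h * cyclotomic m ℤ := by ring
      rwa [h6] at h5
    · rw [if_neg h2, if_pos h3] at h1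
      have h5 := logC_of (x := 1) (N := 0) hΔ (by simp) e01 h1
      have h6 : h.reverse * (g * cyclotomic m ℤ) = h.reverse * g * cyclotomic m ℤ := by ring
      rwa [h6] at h5
    · rw [if_pos h2, if_pos h3] at h1
      have h4 : Nh - Nhr = C (c - 1) * Δ := by
        rw [C_sub, C_1]
        linear_combination h1
      exact logC_of hΔ eh ehr h4

end Pool.Agent.CYD
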