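import Pool.Agent.Helper85_CYD.StG

/-! # CYD: module CLM (one of the two multiplicities is small) -/

set_option autoImplicit false

open Polynomial

namespace Pool.Agent.CYD
namespace H50

theorem exists_C_mul {p : ℕ} {f : ℤ[X]} (h : f.map (Int.castRingHom (ZMod p)) = 0) :
    ∃ F : ℤ[X], f = C (p : ℤ) * F := by
  have h1 : C (p : ℤ) ∣ f := by
    rw [C_dvd_iff_dvd_coeff]
    intro i
    have h2 := congrArg (fun q => coeff q i) h
    simp only [coeff_map, coeff_zero] at h2
    exact (ZMod.intCast_zmod_eq_zero_iff_dvd _ _).1 h2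
  exact h1

theorem exists_lift {p : ℕ} (y : (ZMod p)[X]) :
    ∃ Y : ℤ[X], Y.map (Int.castRingHom (ZMod p)) = y :=
  Polynomial.map_surjective _ (ZMod.intCast_surjective) y

theorem cancel_p {p : ℕ} (hp : p ≠ 0) {f g : ℤ[X]} (h : C (p : ℤ) * f = C (p : ℤ) * g) :
    f = g := by
  refine mul_left_cancel₀ ?_ h
  rw [Ne, C_eq_zero]
  exact_mod_cast hp

theorem pow_dvd {F L : Type} [Field F] [Field L] [Algebra F L] {a : L} (q : L[X])
    (hq : (minpoly F a).map (algebraMap F L) = (X - C a) * q) (hqa : q.eval a ≠ 0) :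
    ∀ (s : ℕ) (f : F[X]), (X - C a) ^ s ∣ f.map (algebraMap F L) → (minpoly F a) ^ s ∣ f
  | 0, f, _ => by simp
  | s + 1, f, h => by
    have h1 : aeval a f = 0 := by
      have : (X - C a) ∣ f.map (algebraMap F L) := (dvd_pow_self _ (Nat.succ_ne_zero s)).trans h
      rw [dvd_iff_isRoot, IsRoot, eval_map_algebraMap] at this
      exact this
    obtain ⟨f1, rfl⟩ := minpoly.dvd F a h1
    rw [Polynomial.map_mul, hq, pow_succ', mul_assoc] at h
    have h2 := (mul_dvd_mul_iff_left (X_sub_C_ne_zero a)).1 h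
    have h3 : IsCoprime ((X - C a) ^ s) q := by
      refine IsCoprime.pow_left ?_
      refine (irreducible_X_sub_C a).coprime_iff_not_dvd.2 ?_
      intro h4
      exact hqa (dvd_iff_isRoot.1 h4)
    have h4 := h3.dvd_of_dvd_mul_left h2
    rw [pow_succ']
    exact mul_dvd_mul_left _ (pow_dvd q hq hqa s f1 h4)

theorem rootMult_derivative {L : Type} [Field L] {p : ℕ} [CharP L p] {f : L[X]} {a : L} {j : ℕ}
    (hj : j < p) (h0 : f.eval a = 0) (hd : (X - C a) ^ j ∣ derivative f) :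
    (X - C a) ^ (j + 1) ∣ f := by
  by_cases hf : f = 0
  · rw [hf]
    exact dvd_zero _
  rw [← le_rootMultiplicity_iff hf]
  by_contra hlt
  push Not at hlt
  have hpos : 0 < rootMultiplicity a f := (rootMultiplicity_pos hf).2 h0
  obtain ⟨g, hg, hga⟩ := exists_eq_pow_rootMultiplicity_mul_and_not_dvd f hf a
  obtain ⟨t, ht⟩ : ∃ t, rootMultiplicity a f = t + 1 := ⟨rootMultiplicity a f - 1, by omega⟩
  rw [ht] at hg hlt
  have htp : ((t + 1 : ℕ) : L) ≠ 0 := by
    intro h
    rw [CharP.cast_eq_zero_iff L p] at h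
    have := Nat.le_of_dvd (Nat.succ_pos t) h
    omega
  have h1 : derivative f = (X - C a) ^ t * (C ((t + 1 : ℕ) : L) * g + (X - C a) * derivative g) := by
    conv_lhs => rw [hg]
    rw [derivative_mul, derivative_X_sub_C_pow]
    push_cast
    simp only [map_add, map_natCast, map_one]
    ring
  have h2 : (X - C a) ∣ C ((t + 1 : ℕ) : L) * g + (X - C a) * derivative g := by
    have h3 : (X - C a) ^ (t + 1) ∣ derivative f := (pow_dvd_pow _ (by omega)).trans hd
    rw [h1, pow_succ] at h3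
    exact (mul_dvd_mul_iff_left (pow_ne_zero _ (X_sub_C_ne_zero a))).1 h3
  have h4 : (X - C a) ∣ C ((t + 1 : ℕ) : L) * g := (dvd_add_left (dvd_mul_right _ _)).1 h2
  rw [dvd_iff_isRoot, IsRoot, eval_mul, eval_C] at h4
  rcases mul_eq_zero.1 h4 with h5 | h5
  · exact htp h5
  · exact hga (dvd_iff_isRoot.2 h5)

/-- the computation modulo `p ^ 2` -/
theorem int_step (p s s' j : ℕ) (hp : p.Prime) (Φ P Ψ Θ g h G1 G2 H1 H2 E1 D1 : ℤ[X]) (c : ℤ)
    (hP : P.map (Int.castRingHom (ZMod p)) ≠ 0)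
    (hΦ : Φ = P * Ψ + C (p : ℤ) * Θ)
    (hg : g = P ^ s * G1 + C (p : ℤ) * G2) (hh : h = P ^ s' * H1 + C (p : ℤ) * H2)
    (hgh : g * h = C c * Φ ^ (s + s') * D1 + C (p : ℤ) * E1)
    (hjs : j ≤ s) (hjs' : j ≤ s') (hj : j + 1 ≤ s + s') :
    ∃ Z W : ℤ[X], E1 = P ^ j * Z + C (p : ℤ) * W := by
  have := Fact.mk hp
  obtain ⟨u, rfl⟩ := Nat.exists_eq_add_of_le hjs
  obtain ⟨v, rfl⟩ := Nat.exists_eq_add_of_le hjs'
  obtain ⟨w, hw⟩ := Nat.exists_eq_add_of_le hj
  obtain ⟨k, hk⟩ := powAddExpansion (P * Ψ) (C (p : ℤ) * Θ) (j + u + (j + v))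
  rw [← hΦ] at hk
  have hw' : j + u + (j + v) - 1 = j + w := by omega
  rw [hw'] at hk
  have e1 : C (p : ℤ) * E1 =
      P ^ (j + u + (j + v)) * (G1 * H1 - C c * Ψ ^ (j + u + (j + v)) * D1) +
        C (p : ℤ) * (P ^ j * (P ^ u * G1 * H2 + P ^ v * G2 * H1 -
          C c * ((j + u + (j + v) : ℕ) : ℤ[X]) * P ^ w * Ψ ^ (j + w) * Θ * D1)) +
        C (p : ℤ) * (C (p : ℤ) * (G2 * H2 - C c * k * Θ ^ 2 * D1)) := by
    have e2 : C (p : ℤ) * E1 = g * h - C c * Φ ^ (j + u + (j + v)) * D1 := by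
      rw [hgh]
      ring
    rw [e2, hg, hh, hk]
    ring
  have hY : (G1 * H1 - C c * Ψ ^ (j + u + (j + v)) * D1).map (Int.castRingHom (ZMod p)) = 0 := by
    have h1 := congrArg (Polynomial.map (Int.castRingHom (ZMod p))) e1
    rw [Polynomial.map_add, Polynomial.map_add, Polynomial.map_mul, Polynomial.map_mul,
      Polynomial.map_mul (Int.castRingHom (ZMod p)) (p := C (p : ℤ)),
      Polynomial.map_mul (Int.castRingHom (ZMod p)) (p := C (p : ℤ)), Polynomial.map_C] at h1
    have h2 : (Int.castRingHom (ZMod p)) (p : ℤ) = 0 := by simp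
    rw [h2, C_0, zero_mul, zero_mul, zero_mul, add_zero, add_zero] at h1
    rw [Polynomial.map_pow] at h1
    exact (mul_eq_zero.1 h1.symm).resolve_left (pow_ne_zero _ hP)
  obtain ⟨Y1, hY1⟩ := exists_C_mul hY
  refine ⟨P ^ (u + (j + v)) * Y1 + (P ^ u * G1 * H2 + P ^ v * G2 * H1 -
          C c * ((j + u + (j + v) : ℕ) : ℤ[X]) * P ^ w * Ψ ^ (j + w) * Θ * D1),
    G2 * H2 - C c * k * Θ ^ 2 * D1, ?_⟩
  refine cancel_p hp.ne_zero ?_
  rw [e1, hY1]
  ring

theorem red_C_p {L : Type} [Field L] {p : ℕ} [CharP L p] (F : ℤ[X]) :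
    red L (C (p : ℤ) * F) = 0 := by
  unfold red
  rw [Polynomial.map_mul, Polynomial.map_C]
  simp

theorem red_eq_map {L : Type} [Field L] {p : ℕ} [CharP L p] (f : ℤ[X]) :
    red L f = (f.map (Int.castRingHom (ZMod p))).map (ZMod.castHom (dvd_refl p) L) := by
  unfold red
  rw [Polynomial.map_map]
  congr 1
  exact RingHom.ext_int _ _

/-- the cyclotomic polynomial of order `p m` modulo `p` -/
theorem cyc_step (p m : ℕ) (hp : p.Prime) (hpm : ¬ p ∣ m) :
    ∃ E1 : ℤ[X], cyclotomic (p * m) ℤ = cyclotomic m ℤ ^ (p - 1) + C (p : ℤ) * E1 := by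
  have := Fact.mk hp
  have h1 : (cyclotomic (p * m) ℤ - cyclotomic m ℤ ^ (p - 1)).map (Int.castRingHom (ZMod p)) = 0 := by
    rw [Polynomial.map_sub, Polynomial.map_pow, map_cyclotomic_int, map_cyclotomic_int, mul_comm,
      cyclotomic_mul_prime_eq_pow_of_not_dvd (ZMod p) hpm, sub_self]
  obtain ⟨E, hE⟩ := exists_C_mul h1
  exact ⟨E, by rw [← hE]; ring⟩

theorem cyc_deriv (p m : ℕ) (hp : p.Prime) (hpm : ¬ p ∣ m) (E1 : ℤ[X])
    (hE : cyclotomic (p * m) ℤ = cyclotomic m ℤ ^ (p - 1) + C (p : ℤ) * E1) :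
    expand ℤ p (X * derivative (cyclotomic m ℤ)) =
      X * (cyclotomic m ℤ ^ (p - 1) * derivative (cyclotomic m ℤ)) +
        X * derivative (cyclotomic m ℤ) * E1 + X * (cyclotomic m ℤ * derivative E1) := by
  have h1 : expand ℤ p (cyclotomic m ℤ) =
      cyclotomic m ℤ ^ p + C (p : ℤ) * (cyclotomic m ℤ * E1) := by
    rw [cyclotomic_expand_eq_cyclotomic_mul hp hpm ℤ, mul_comm m p, hE]
    have h2 : cyclotomic m ℤ ^ p = cyclotomic m ℤ ^ (p - 1) * cyclotomic m ℤ := by
      rw [← pow_succ, Nat.sub_add_cancel hp.one_le]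
    rw [h2]
    ring
  have h3 := congrArg derivative h1
  rw [derivative_expand, derivative_add, derivative_pow, derivative_C_mul, derivative_mul] at h3
  refine cancel_p hp.ne_zero ?_
  have h4 : X ^ p = X ^ (p - 1) * (X : ℤ[X]) := by
    rw [← pow_succ, Nat.sub_add_cancel hp.one_le]
  have h5 : (C (p : ℤ) : ℤ[X]) = (p : ℤ[X]) := by simp
  rw [_root_.map_mul, expand_X, h4, h5]
  rw [h5] at h3
  linear_combination (X : ℤ[X]) * h3

/-- the multiplicities of a root of unity -/
theorem mult_sum {L : Type} [Field L] {p m : ℕ} [CharP L p] (_hp : p.Prime) (hpm : ¬ p ∣ m)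
    {a : L} (ha : IsPrimitiveRoot a m) {G H : L[X]}
    (hGH : G * H = -(cyclotomic m L ^ (p - 2) * derivative (cyclotomic m L))) :
    rootMultiplicity a G + rootMultiplicity a H = p - 2 ∧
      (derivative (cyclotomic m L)).eval a ≠ 0 := by
  have hm0 : m ≠ 0 := by
    rintro rfl
    exact hpm (dvd_zero p)
  have hmL : NeZero (m : L) := ⟨fun h => hpm ((CharP.cast_eq_zero_iff L p m).1 h)⟩
  have hroot : (cyclotomic m L).eval a = 0 := by
    have h1 : IsRoot (cyclotomic m L) a := (isRoot_cyclotomic_iff).2 ha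
    exact h1
  have hsep : (cyclotomic m L).Separable := separable_cyclotomic m L
  have hder : (derivative (cyclotomic m L)).eval a ≠ 0 := by
    have h1 := hsep.eval₂_derivative_ne_zero (RingHom.id L) (x := a) (by
      rw [eval₂_id]
      exact hroot)
    rwa [eval₂_id] at h1
  refine ⟨?_, hder⟩
  obtain ⟨f1, hf1⟩ := dvd_iff_isRoot.2 (show IsRoot (cyclotomic m L) a from hroot)
  have hf1a : f1.eval a ≠ 0 := by
    intro h
    apply hder
    rw [hf1, derivative_mul]
    simp [h]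
  have h1 : G * H = (-(f1 ^ (p - 2) * derivative (cyclotomic m L))) * (X - C a) ^ (p - 2) := by
    rw [hGH]
    conv_lhs => rw [hf1]
    rw [mul_pow, ← hf1]
    ring
  have h2 : (-(f1 ^ (p - 2) * derivative (cyclotomic m L))).eval a ≠ 0 := by
    rw [eval_neg, eval_mul, eval_pow]
    exact neg_ne_zero.2 (mul_ne_zero (pow_ne_zero _ hf1a) hder)
  have h3 : (-(f1 ^ (p - 2) * derivative (cyclotomic m L))) ≠ 0 := by
    intro h
    rw [h, eval_zero] at h2
    exact h2 rfl
  have h4 : G * H ≠ 0 := by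
    rw [h1]
    exact mul_ne_zero h3 (pow_ne_zero _ (X_sub_C_ne_zero a))
  rw [← rootMultiplicity_mul h4, h1, rootMultiplicity_mul_X_sub_C_pow h3,
    rootMultiplicity_eq_zero h2, zero_add]

theorem contra {L : Type} [Field L] {T : L[X]} {a c e : L} {d : ℕ} (hT : T.natDegree ≤ d)
    (hT0 : T.eval 0 = 0) (hc : c ≠ 0) : ¬ (X - C a) ^ (d + 1) ∣ C c - C e * T := by
  intro h
  have h1 : C c - C e * T ≠ 0 := by
    intro h2
    have h3 := congrArg (eval 0) h2
    rw [eval_sub, eval_mul, eval_C, eval_C, hT0, mul_zero, sub_zero, eval_zero] at h3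
    exact hc h3
  have h2 := natDegree_le_of_dvd h h1
  rw [natDegree_pow, natDegree_X_sub_C, mul_one] at h2
  have h3 : (C c - C e * T).natDegree ≤ d := by
    refine (natDegree_sub_le _ _).trans (max_le ?_ ((natDegree_C_mul_le _ _).trans hT))
    rw [natDegree_C]
    exact Nat.zero_le _
  omega

/-- a decomposition of an integer polynomial with respect to a lift of the minimal polynomial -/
theorem exists_decomp {L : Type} [Field L] {p : ℕ} [Fact p.Prime] [CharP L p]
    [Algebra (ZMod p) L] {a : L} (q : L[X])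
    (hq : (minpoly (ZMod p) a).map (algebraMap (ZMod p) L) = (X - C a) * q) (hqa : q.eval a ≠ 0)
    {P : ℤ[X]} (hP : P.map (Int.castRingHom (ZMod p)) = minpoly (ZMod p) a) (f : ℤ[X]) (s : ℕ)
    (hf : (X - C a) ^ s ∣ red L f) : ∃ F1 F2 : ℤ[X], f = P ^ s * F1 + C (p : ℤ) * F2 := by
  have halg : ZMod.castHom (dvd_refl p) L = algebraMap (ZMod p) L := Subsingleton.elim _ _
  rw [red_eq_map (p := p), halg] at hf
  obtain ⟨y, hy⟩ := pow_dvd q hq hqa s _ hf
  obtain ⟨Y, hY⟩ := exists_lift y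
  have h1 : (f - P ^ s * Y).map (Int.castRingHom (ZMod p)) = 0 := by
    rw [Polynomial.map_sub, Polynomial.map_mul, Polynomial.map_pow, hP, hY, hy, sub_self]
  obtain ⟨F2, hF2⟩ := exists_C_mul h1
  exact ⟨Y, F2, by rw [← hF2]; ring⟩

end H50

/-- module CLM -/
theorem clm : ClmStmt := by
  intro p m g h hp hm hmp F L _ _ a ha
  have := Fact.mk hp
  by_contra hcon
  push Not at hcon
  obtain ⟨hc1, hc2⟩ := hcon
  have hpm : ¬ p ∣ m := fun hd => by
    have h1 := Nat.coprime_of_squarefree_mul F.hs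
    rw [Nat.Prime.coprime_iff_not_dvd hp] at h1
    exact h1 hd
  obtain ⟨E1, hE⟩ := H50.cyc_step p m hp hpm
  have hgh : g * h = C ((p - 1 : ℕ) : ℤ) * cyclotomic m ℤ ^ (p - 2) *
      derivative (cyclotomic m ℤ) + C (p : ℤ) * derivative E1 := by
    rw [F.fac, hE, derivative_add, derivative_pow, derivative_C_mul, Nat.sub_sub]
  have hGH : red L g * red L h =
      -(cyclotomic m L ^ (p - 2) * derivative (cyclotomic m L)) := by
    have h1 := congrArg (red L) hgh
    have h2 : red L (g * h) = red L g * red L h := Polynomial.map_mul _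
    have h3 : red L (C ((p - 1 : ℕ) : ℤ) * cyclotomic m ℤ ^ (p - 2) *
        derivative (cyclotomic m ℤ) + C (p : ℤ) * derivative E1) =
        C ((p - 1 : ℕ) : L) * cyclotomic m L ^ (p - 2) * derivative (cyclotomic m L) := by
      have h4 : red L (C ((p - 1 : ℕ) : ℤ) * cyclotomic m ℤ ^ (p - 2) *
        derivative (cyclotomic m ℤ) + C (p : ℤ) * derivative E1) =
        red L (C ((p - 1 : ℕ) : ℤ) * cyclotomic m ℤ ^ (p - 2) *
        derivative (cyclotomic m ℤ)) + red L (C (p : ℤ) * derivative E1) := Polynomial.map_add _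
      rw [h4, H50.red_C_p, add_zero]
      unfold red
      rw [Polynomial.map_mul, Polynomial.map_mul, Polynomial.map_pow, map_cyclotomic_int,
        Polynomial.map_C, ← derivative_map, map_cyclotomic_int]
      simp
    rw [← h2, h1, h3, Nat.cast_sub hp.one_le, CharP.cast_eq_zero L p]
    simp
  obtain ⟨hsum, hder⟩ := H50.mult_sum hp hpm ha hGH
  have hm2 : 2 ≤ m.totient := by
    have h1 := Nat.totient_even (show 2 < m by omega)
    have h2 := Nat.totient_pos.2 (show 0 < m by omega)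
    obtain ⟨r, hr⟩ := h1
    omega
  let _ : Algebra (ZMod p) L := ZMod.algebra L p
  have halg : ZMod.castHom (dvd_refl p) L = algebraMap (ZMod p) L := Subsingleton.elim _ _
  have hmL : NeZero (m : L) := ⟨fun h => hpm ((CharP.cast_eq_zero_iff L p m).1 h)⟩
  have hroot : aeval a (cyclotomic m (ZMod p)) = 0 := by
    have h1 : IsRoot (cyclotomic m L) a := (isRoot_cyclotomic_iff).2 ha
    rw [← eval_map_algebraMap, map_cyclotomic]
    exact h1
  obtain ⟨ψ, hψ⟩ := minpoly.dvd (ZMod p) a hroot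
  have hroot1 : ((minpoly (ZMod p) a).map (algebraMap (ZMod p) L)).eval a = 0 := by
    rw [eval_map_algebraMap]
    exact minpoly.aeval _ _
  obtain ⟨q, hq⟩ := dvd_iff_isRoot.2 (show IsRoot _ a from hroot1)
  have hqa : q.eval a ≠ 0 := by
    intro h1
    apply hder
    have h2 : cyclotomic m L = (X - C a) * (q * ψ.map (algebraMap (ZMod p) L)) := by
      rw [← map_cyclotomic m (algebraMap (ZMod p) L), hψ, Polynomial.map_mul, hq, mul_assoc]
    rw [h2, derivative_mul]
    simp [h1]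
  obtain ⟨P, hP⟩ := H50.exists_lift (minpoly (ZMod p) a)
  obtain ⟨Ψ, hΨ⟩ := H50.exists_lift ψ
  have hΦ1 : (cyclotomic m ℤ - P * Ψ).map (Int.castRingHom (ZMod p)) = 0 := by
    rw [Polynomial.map_sub, Polynomial.map_mul, hP, hΨ, map_cyclotomic_int, hψ, sub_self]
  obtain ⟨Θ, hΘ⟩ := H50.exists_C_mul hΦ1
  have hΦ : cyclotomic m ℤ = P * Ψ + C (p : ℤ) * Θ := by
    rw [← hΘ]
    ring
  obtain ⟨G1, G2, hg⟩ := H50.exists_decomp q hq hqa hP g (rootMultiplicity a (red L g))
    (pow_rootMultiplicity_dvd _ _)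
  obtain ⟨H1, H2, hh⟩ := H50.exists_decomp q hq hqa hP h (rootMultiplicity a (red L h))
    (pow_rootMultiplicity_dvd _ _)
  have hP0 : P.map (Int.castRingHom (ZMod p)) ≠ 0 := by
    rw [hP]
    intro h1
    rw [h1, zero_mul] at hψ
    exact cyclotomic_ne_zero m (ZMod p) hψ
  rw [← hsum] at hgh
  obtain ⟨Z, W, hZW⟩ := H50.int_step p _ _ m.totient hp _ P Ψ Θ g h G1 G2 H1 H2 _ _ _ hP0 hΦ hg
    hh hgh hc1 hc2 (by omega)
  have hred : ∀ f k : ℤ[X], red L (f + k) = red L f + red L k := fun f k => Polynomial.map_add _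
  have hredm : ∀ f k : ℤ[X], red L (f * k) = red L f * red L k := fun f k => Polynomial.map_mul _
  have hredp : ∀ (f : ℤ[X]) (k : ℕ), red L (f ^ k) = red L f ^ k := fun f k =>
    Polynomial.map_pow _ _
  have hredd : ∀ f : ℤ[X], derivative (red L f) = red L (derivative f) := fun f =>
    derivative_map _ _
  have hredX : red L X = X := Polynomial.map_X _
  have hredc : red L (cyclotomic m ℤ) = cyclotomic m L := map_cyclotomic_int _ _
  have hPa : (X - C a) ∣ red L P := by
    rw [H50.red_eq_map (p := p), hP, halg, hq]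
    exact dvd_mul_right _ _
  have hd1 : (X - C a) ^ m.totient ∣ derivative (red L E1) := by
    rw [hredd, hZW, hred, H50.red_C_p, add_zero, hredm, hredp]
    exact (pow_dvd_pow_of_dvd hPa _).trans (dvd_mul_right _ _)
  have hjp : m.totient + 1 < p := by omega
  have hd2 : (X - C a) ^ (m.totient + 1) ∣ red L E1 - C ((red L E1).eval a) := by
    refine H50.rootMult_derivative (p := p) (by omega) (by simp) ?_
    rw [derivative_sub, derivative_C, sub_zero]
    exact hd1
  -- the main identity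
  have hid := congrArg (red L) (H50.cyc_deriv p m hp hpm E1 hE)
  have hexp : red L (expand ℤ p (X * derivative (cyclotomic m ℤ))) =
      (X * derivative (cyclotomic m L)) ^ p := by
    have h1 : (expand ℤ p (X * derivative (cyclotomic m ℤ))).map (Int.castRingHom (ZMod p)) =
        ((X * derivative (cyclotomic m ℤ)).map (Int.castRingHom (ZMod p))) ^ p := by
      rw [map_expand, ZMod.expand_card]
    rw [H50.red_eq_map (p := p), h1, Polynomial.map_pow, ← H50.red_eq_map (p := p), hredm, hredX,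
      ← hredd, hredc]
  rw [hexp] at hid
  simp only [hred, hredm, hredp, hredX, ← hredd, hredc] at hid
  set T : L[X] := X * derivative (cyclotomic m L) with hT
  have hcyc : (X - C a) ∣ cyclotomic m L := by
    rw [dvd_iff_isRoot]
    exact (isRoot_cyclotomic_iff).2 ha
  have hTp : (X - C a) ^ (m.totient + 1) ∣ T ^ p - C (T.eval a) ^ p := by
    have h1 : T ^ p - C (T.eval a) ^ p = (T - C (T.eval a)) ^ p := (sub_pow_char _ _).symm
    rw [h1]
    refine (pow_dvd_pow _ hjp.le).trans (pow_dvd_pow_of_dvd ?_ _)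
    rw [dvd_iff_isRoot]
    simp
  have hmain : (X - C a) ^ (m.totient + 1) ∣
      C (T.eval a ^ p) - C ((red L E1).eval a) * T := by
    have h1 : C (T.eval a ^ p) - C ((red L E1).eval a) * T =
        -(T ^ p - C (T.eval a) ^ p) +
        (X * (cyclotomic m L ^ (p - 1) * derivative (cyclotomic m L)) +
          (T * (red L E1 - C ((red L E1).eval a)) +
            X * (cyclotomic m L * derivative (red L E1)))) := by
      rw [C_pow, hid]
      ring
    rw [h1]
    refine dvd_add (dvd_neg.2 hTp) (dvd_add ?_ (dvd_add ?_ ?_))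
    · refine Dvd.dvd.mul_left (Dvd.dvd.mul_right ?_ _) _
      exact (pow_dvd_pow _ (by omega)).trans (pow_dvd_pow_of_dvd hcyc _)
    · exact Dvd.dvd.mul_left hd2 _
    · refine Dvd.dvd.mul_left ?_ _
      rw [pow_succ']
      exact mul_dvd_mul hcyc hd1
  have hTa : T.eval a ≠ 0 := by
    rw [hT, eval_mul, eval_X]
    exact mul_ne_zero (ha.ne_zero (by omega)) hder
  refine H50.contra (T := T) ?_ (by rw [hT, eval_mul, eval_X, zero_mul]) (pow_ne_zero p hTa) hmain
  refine (natDegree_mul_le).trans ?_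
  have h1 := natDegree_derivative_lt (p := cyclotomic m L) (by rw [natDegree_cyclotomic]; omega)
  rw [natDegree_cyclotomic] at h1
  rw [natDegree_X]
  omega

end Pool.Agent.CYD
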